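import Mathlib

set_option autoImplicit false

namespace Pool.Agent.Results.MP_f969e6_lc.IsoDual

open Polynomial

/-- The polynomial c_0 + c_1 x + ... + c_{n-1} x^{n-1} attached to a vector. -/
noncomputable def toPoly {n : ℕ} (c : Fin n → ZMod 2) : (ZMod 2)[X] :=
  ∑ k : Fin n, C (c k) * X ^ (k : ℕ)

/-- The polycyclic code of length n generated by g with respect to t: the vectors whose class in
F_2[x]/(t) lies in the ideal generated by the class of g. -/
def code (n : ℕ) (t g : (ZMod 2)[X]) : Set (Fin n → ZMod 2) :=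
  {c | AdjoinRoot.mk t (toPoly c) ∈ Ideal.span {AdjoinRoot.mk t g}}

/-- The dual code for the standard inner product. -/
def dual {n : ℕ} (S : Set (Fin n → ZMod 2)) : Set (Fin n → ZMod 2) :=
  {u | ∀ c ∈ S, ∑ k, u k * c k = 0}

/-- Some permutation of the coordinates maps the code onto its dual. -/
def IsIsoDual {n : ℕ} (S : Set (Fin n → ZMod 2)) : Prop :=
  ∃ σ : Equiv.Perm (Fin n), (fun c : Fin n → ZMod 2 => c ∘ σ) '' S = dual S

noncomputable def g0 : (ZMod 2)[X] := X ^ 10 + X ^ 9 + X ^ 8 + X ^ 4 + X ^ 3 + X + 1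

def bit (a i : ℕ) : ZMod 2 := if a.testBit i then 1 else 0

def R : Fin 10 → Fin 20 → ZMod 2 := fun j k => if (j : ℕ) ≤ k then bit 1819 (k - j) else 0
def A : Fin 10 → Fin 20 → ZMod 2 := fun j k =>
  bit ([1024, 3072, 7168, 14336, 28672, 57344, 115712, 232448, 464896, 930816].getD j 0) k
def B : Fin 20 → Fin 10 → ZMod 2 := fun j k =>
  bit ([0, 0, 0, 0, 0, 0, 0, 0, 0, 0, 711, 398, 796, 568, 112, 224, 448, 896, 768, 512].getD j 0) k
def P : Fin 20 → Fin 20 → ZMod 2 := fun k l => if l = k + 10 then 1 else 0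

lemma id1 : ∀ k l, P k l = ∑ j, R j k * A j l + ∑ j, B k j * R j l := by decide +kernel
lemma id2 : ∀ i j, ∑ k, R i (k + 10) * R j k = 0 := by decide +kernel

lemma g0_coeff (i : ℕ) : g0.coeff i = bit 1819 i := by
  by_cases h : i < 11
  · interval_cases i <;> simp [g0, coeff_X, coeff_one, coeff_X_pow] <;> decide
  · have h1 : bit 1819 i = 0 := by
      unfold bit
      rw [Nat.testBit_eq_false_of_lt]
      · simp
      · calc 1819 < 2 ^ 11 := by norm_num
          _ ≤ 2 ^ i := Nat.pow_le_pow_right (by norm_num) (by omega)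
    rw [h1]
    simp only [g0, coeff_add, coeff_X_pow, coeff_X, coeff_one]
    rw [if_neg (by omega), if_neg (by omega), if_neg (by omega), if_neg (by omega),
      if_neg (by omega), if_neg (by omega), if_neg (by omega)]
    simp

lemma toPoly_coeff {n : ℕ} (c : Fin n → ZMod 2) (i : ℕ) :
    (toPoly c).coeff i = if h : i < n then c ⟨i, h⟩ else 0 := by
  simp only [toPoly, finsetSum_coeff, coeff_C_mul_X_pow]
  split_ifs with h
  · rw [Finset.sum_eq_single ⟨i, h⟩]
    · simp
    · intro b _ hb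
      rw [if_neg]
      intro e; exact hb (Fin.ext e.symm)
    · simp
  · apply Finset.sum_eq_zero
    intro k _
    rw [if_neg]
    have := k.2
    omega

lemma g0_monic : g0.Monic := by unfold g0; monicity!
lemma g0_deg : g0.natDegree = 10 := by unfold g0; compute_degree!

lemma mul_coeff (m : Fin 10 → ZMod 2) (k : ℕ) :
    (g0 * toPoly m).coeff k = ∑ j : Fin 10, m j * (if (j : ℕ) ≤ k then bit 1819 (k - j) else 0) := by
  simp only [toPoly, Finset.mul_sum, finsetSum_coeff]
  refine Finset.sum_congr rfl fun j _ => ?_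
  rw [show g0 * (C (m j) * X ^ (j : ℕ)) = C (m j) * (g0 * X ^ (j : ℕ)) by ring, coeff_C_mul,
    coeff_mul_X_pow', g0_coeff]

lemma dvd_iff (c : Fin 20 → ZMod 2) :
    g0 ∣ toPoly c ↔ ∃ m : Fin 10 → ZMod 2, ∀ k, c k = ∑ j, m j * R j k := by
  constructor
  · rintro ⟨h, hh⟩
    have hdeg : ∀ i, 10 ≤ i → h.coeff i = 0 := by
      by_cases h0 : h = 0
      · simp [h0]
      have h1 : (toPoly c).natDegree < 20 := by
        have : (toPoly c).natDegree ≤ 19 := by
          rw [natDegree_le_iff_coeff_eq_zero]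
          intro N hN
          rw [toPoly_coeff, dif_neg (by omega)]
        omega
      rw [hh, g0_monic.natDegree_mul' h0, g0_deg] at h1
      intro i hi
      exact coeff_eq_zero_of_natDegree_lt (by omega)
    have hm : h = toPoly (fun j : Fin 10 => h.coeff j) := by
      ext i
      rw [toPoly_coeff]
      split_ifs with hi
      · rfl
      · exact hdeg i (by omega)
    refine ⟨fun j => h.coeff j, fun k => ?_⟩
    have := congrArg (fun p => p.coeff k) hh
    rw [toPoly_coeff, dif_pos k.2, hm, mul_coeff] at this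
    rw [this]
    exact Finset.sum_congr rfl fun j _ => rfl
  · rintro ⟨m, hm⟩
    refine ⟨toPoly m, ?_⟩
    ext i
    rw [toPoly_coeff, mul_coeff]
    split_ifs with hi
    · rw [hm]; rfl
    · symm
      apply Finset.sum_eq_zero
      intro j _
      have hj := j.2
      have : bit 1819 (i - j) = 0 := by
        unfold bit
        rw [Nat.testBit_eq_false_of_lt]
        · simp
        · calc 1819 < 2 ^ 11 := by norm_num
            _ ≤ 2 ^ (i - j) := Nat.pow_le_pow_right (by norm_num) (by omega)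
      simp [this]

lemma two_zero : (2 : (ZMod 2)[X]) = 0 := by
  have : (2 : (ZMod 2)[X]) = C 2 := rfl
  rw [this]
  have : (2 : ZMod 2) = 0 := rfl
  rw [this, C_0]

lemma g0_dvd : g0 ∣ X ^ 20 + X ^ 10 + 1 := by
  refine ⟨X ^ 10 + X ^ 9 + X ^ 7 + X ^ 6 + X ^ 2 + X + 1, ?_⟩
  unfold g0
  linear_combination (exp := 1) (-(X ^ 19 + X ^ 18 + X ^ 17 + X ^ 16 + X ^ 15 + X ^ 14 + X ^ 13
    + X ^ 12 + 2 * X ^ 11 + 3 * X ^ 10 + 2 * X ^ 9 + X ^ 8 + X ^ 7 + X ^ 6 + X ^ 5 + X ^ 4 + X ^ 3
    + X ^ 2 + X : (ZMod 2)[X])) * two_zero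

lemma mem_code (c : Fin 20 → ZMod 2) :
    c ∈ code 20 (X ^ 20 + X ^ 10 + 1) g0 ↔ ∃ m : Fin 10 → ZMod 2, ∀ k, c k = ∑ j, m j * R j k := by
  rw [← dvd_iff, code, Set.mem_ofPred_eq, Ideal.mem_span_singleton]
  constructor
  · rintro ⟨q, hq⟩
    obtain ⟨q, rfl⟩ := AdjoinRoot.mk_surjective q
    rw [← map_mul, AdjoinRoot.mk_eq_mk] at hq
    have := (g0_dvd.trans hq).add (dvd_mul_right g0 q)
    simpa using this
  · intro h
    exact map_dvd _ h

lemma iso : IsIsoDual (code 20 (X ^ 20 + X ^ 10 + 1) g0) := by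
  refine ⟨Equiv.addRight 10, ?_⟩
  ext u
  constructor
  · rintro ⟨c, hc, rfl⟩ d hd
    obtain ⟨m, hm⟩ := (mem_code c).1 hc
    obtain ⟨m', hm'⟩ := (mem_code d).1 hd
    simp only [Function.comp, Equiv.coe_addRight, hm, hm', Finset.sum_mul_sum]
    rw [Finset.sum_comm]
    refine Finset.sum_eq_zero fun i _ => ?_
    rw [Finset.sum_comm]
    refine Finset.sum_eq_zero fun j _ => ?_
    have := id2 i j
    calc ∑ k, m i * R i (k + 10) * (m' j * R j k) = m i * m' j * ∑ k, R i (k + 10) * R j k := by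
          rw [Finset.mul_sum]; exact Finset.sum_congr rfl fun k _ => by ring
      _ = 0 := by rw [this, mul_zero]
  · intro hu
    have hR : ∀ j, ∑ l, R j l * u l = 0 := by
      intro j
      have := hu (R j) ((mem_code _).2 ⟨Pi.single j 1, fun k => by simp [Pi.single_apply]⟩)
      rw [← this]
      exact Finset.sum_congr rfl fun k _ => by ring
    refine ⟨fun k => u (k + 10), (mem_code _).2 ⟨fun j => ∑ l, A j l * u l, fun k => ?_⟩, ?_⟩
    · have e : u (k + 10) = ∑ l, P k l * u l := by simp [P]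
      rw [e]
      simp only [id1, add_mul, Finset.sum_add_distrib, Finset.sum_mul]
      rw [Finset.sum_comm, Finset.sum_comm (s := Finset.univ (α := Fin 20))]
      have z : ∑ j : Fin 10, ∑ l : Fin 20, B k j * R j l * u l = 0 := by
        refine Finset.sum_eq_zero fun j _ => ?_
        calc ∑ l, B k j * R j l * u l = B k j * ∑ l, R j l * u l := by
              rw [Finset.mul_sum]; exact Finset.sum_congr rfl fun k _ => by ring
          _ = 0 := by rw [hR, mul_zero]
      rw [z, add_zero]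
      exact Finset.sum_congr rfl fun j _ => Finset.sum_congr rfl fun l _ => by ring
    · funext k
      have : ∀ k : Fin 20, k + 10 + 10 = k := by decide
      simp [this]

/-- The conjectured equivalence fails. -/
theorem result :
    ¬ ∀ n i : ℕ, 1 ≤ i → i < n → ∀ g : (ZMod 2)[X], g.Monic → g ∣ X ^ n + X ^ i + 1 →
      (IsIsoDual (code n (X ^ n + X ^ i + 1) g) ↔ g ^ 2 = X ^ n + X ^ i + 1) := by
  intro h
  have h1 := (h 20 10 (by norm_num) (by norm_num) g0 g0_monic g0_dvd).1 iso
  have h2 := congrArg (fun p => p.coeff 2) h1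
  simp only [sq, coeff_mul, g0_coeff, coeff_add, coeff_X_pow, coeff_one] at h2
  revert h2
  decide

end Pool.Agent.Results.MP_f969e6_lc.IsoDual
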